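import Mathlib
import Pool.Agent.Y374.RP.Op

/-!
# A zero estimate at `X = -1` for sums of few functions `X^e (X+1)^a P(X)`, `P` of small degree
-/

set_option autoImplicit false

namespace Pool.Agent.N957.RP

open Polynomial Finset Pool.Agent.TH350.WZ Pool.Agent.Y374.RP

variable {F : Type*} [Field F]

/-- `dl^[i]` of `X^e (X+1)^a P` is `X^e (X+1)^a Q` with `deg Q ≤ deg P + i` -/
lemma dl_iter_ph_mul (s : ℕ × ℕ) (P : F[X]) (n : ℕ) (hP : P.natDegree ≤ n) (i : ℕ) :
    ∃ Q : F[X], dl^[i] (ph s * P) = ph s * Q ∧ Q.natDegree ≤ n + i := by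
  induction i with
  | zero => exact ⟨P, rfl, by simpa using hP⟩
  | succ i ih =>
    obtain ⟨Q, h1, h2⟩ := ih
    obtain ⟨Q', h3, h4⟩ := dl_step 0 (n + i) (dl^[i] (ph s * P)) Q s (by rw [pow_zero, one_mul, h1]) h2
    refine ⟨Q', ?_, by omega⟩
    rw [Function.iterate_succ_apply']
    rw [pow_zero, one_mul] at h3
    exact h3

lemma natDegree_det_le (m : ℕ) (G : Matrix (Fin m) (Fin m) F[X]) (D : Fin m → ℕ)
    (h : ∀ i j, (G i j).natDegree ≤ D j + (i : ℕ)) :
    2 * G.det.natDegree ≤ 2 * ∑ j, D j + m * (m - 1) := by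
  have h0 : G.det.natDegree ≤ ∑ j, D j + ∑ i : Fin m, (i : ℕ) := by
    rw [Matrix.det_apply]
    refine natDegree_sum_le_of_forall_le _ _ (fun σ _ => ?_)
    have h1 : (Equiv.Perm.sign σ • ∏ i, G (σ i) i).natDegree ≤ (∏ i, G (σ i) i).natDegree := by
      rcases Int.units_eq_one_or (Equiv.Perm.sign σ) with h | h
      · rw [h]; simp
      · rw [h]; simp
    refine h1.trans ((natDegree_prod_le _ _).trans ?_)
    calc ∑ i, (G (σ i) i).natDegree ≤ ∑ i, (D i + (σ i : ℕ)) :=
          Finset.sum_le_sum (fun i _ => h _ _)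
      _ = ∑ j, D j + ∑ i : Fin m, (i : ℕ) := by
          rw [Finset.sum_add_distrib, Equiv.sum_comp σ (fun i : Fin m => (i : ℕ))]
  have h2 : ∑ i : Fin m, (i : ℕ) = ∑ i ∈ range m, i := Fin.sum_univ_eq_sum_range (fun i => i) m
  have h3 := Finset.sum_range_id_mul_two m
  rw [h2] at h0
  omega

/-- the zero estimate for linearly independent functions -/
theorem zest_fin (p : ℕ) [Fact p.Prime] [CharP F p] (m : ℕ) (g : Fin m → F[X])
    (s : Fin m → ℕ × ℕ) (P : Fin m → F[X]) (D : Fin m → ℕ) (hg : ∀ j, g j = ph (s j) * P j)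
    (hP : ∀ j, (P j).natDegree ≤ D j) (hdeg : ∀ j, (g j).natDegree < p)
    (hli : LinearIndependent F g) (c : Fin m → F) (M μ : ℕ)
    (hM : (X + 1) ^ M ∣ ∑ j, C (c j) * g j) (j0 : Fin m) (hc : c j0 ≠ 0) (hj0 : (s j0).2 ≤ μ) :
    2 * M ≤ 2 * ∑ j, D j + m * (m - 1) + 2 * μ := by
  classical
  have hex : ∀ (i : ℕ) (j : Fin m), ∃ Q : F[X], dl^[i] (g j) = ph (s j) * Q ∧
      Q.natDegree ≤ D j + i := by
    intro i j
    rw [hg j]
    exact dl_iter_ph_mul (s j) (P j) (D j) (hP j) i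
  choose Q hQ1 hQ2 using hex
  set G : Matrix (Fin m) (Fin m) F[X] := Matrix.of fun i j => Q (i : ℕ) j with hG
  have hdet : G.det ≠ 0 := by
    intro h0
    obtain ⟨u, hu0, hu⟩ := Matrix.exists_vecMul_eq_zero_iff.2 h0
    apply hu0
    refine nonvanish p m g hli hdeg u (fun j => ?_)
    have h1 := congrFun hu j
    simp only [Matrix.vecMul, dotProduct, Pi.zero_apply, hG, Matrix.of_apply] at h1
    have h2 : ∑ i : Fin m, u i * dl^[(i : ℕ)] (g j) = ph (s j) * ∑ i : Fin m, u i * Q (i : ℕ) j := by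
      rw [Finset.mul_sum]
      refine Finset.sum_congr rfl (fun i _ => ?_)
      rw [hQ1]; ring
    rw [h2, h1, mul_zero]
  set f : F[X] := ∑ j, C (c j) * g j with hf
  have hGm : G.mulVec (fun j => C (c j) * ph (s j)) = fun i : Fin m => dl^[(i : ℕ)] f := by
    funext i
    rw [hf, dl_iter_sum]
    simp only [Matrix.mulVec, dotProduct, hG, Matrix.of_apply]
    refine Finset.sum_congr rfl (fun j _ => ?_)
    rw [dl_iter_C_mul, hQ1]; ring
  have hadj : G.det • (fun j => C (c j) * ph (s j)) =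
      G.adjugate.mulVec (fun i : Fin m => dl^[(i : ℕ)] f) := by
    rw [← hGm, Matrix.mulVec_mulVec, Matrix.adjugate_mul, Matrix.smul_mulVec, Matrix.one_mulVec]
  have hX1 : (X + 1 : F[X]) ≠ 0 := X_add_C_ne_zero 1
  have hX1d : ∀ m : ℕ, ((X + 1 : F[X]) ^ m).natDegree = m := by
    intro m
    have e : (X + 1 : F[X]) = X + C 1 := by simp
    rw [natDegree_pow, e, natDegree_X_add_C, mul_one]
  have hdvd : (X + 1) ^ M ∣ X ^ (s j0).1 * (G.det * (X + 1) ^ (s j0).2) := by
    have h1 := congrFun hadj j0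
    simp only [Pi.smul_apply, smul_eq_mul, Matrix.mulVec, dotProduct] at h1
    have h2 : (X + 1) ^ M ∣ G.det * (C (c j0) * ph (s j0)) := by
      rw [h1]
      refine Finset.dvd_sum (fun i _ => ?_)
      exact Dvd.dvd.mul_left (dvd_dl_iter M f hM _) _
    have h4 : X ^ (s j0).1 * (G.det * (X + 1) ^ (s j0).2) =
        G.det * (C (c j0) * ph (s j0)) * C ((c j0)⁻¹) := by
      have h5 : C (c j0) * C ((c j0)⁻¹) = (1 : F[X]) := by
        rw [← C_mul, mul_inv_cancel₀ hc, C_1]
      unfold ph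
      linear_combination (- G.det * X ^ (s j0).1 * (X + 1) ^ (s j0).2) * h5
    rw [h4]
    exact Dvd.dvd.mul_right h2 _
  have hcop : IsCoprime ((X + 1 : F[X]) ^ M) (X ^ (s j0).1) := by
    refine IsCoprime.pow ?_
    exact ⟨1, -1, by ring⟩
  have h3 := hcop.dvd_of_dvd_mul_left hdvd
  have h5 := natDegree_le_of_dvd h3 (mul_ne_zero hdet (pow_ne_zero _ hX1))
  rw [hX1d, natDegree_mul hdet (pow_ne_zero _ hX1), hX1d] at h5
  have h7 := natDegree_det_le m G D (fun i j => by rw [hG, Matrix.of_apply]; exact hQ2 _ _)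
  omega

/-- The zero estimate: let `g j = X^e (X+1)^a P`, `(e, a) = s j`, `deg P ≤ D j`, be `n` polynomials of
degree `< p`, and let `H` be in their span but not in the span of those with `a > μ`. Then the order
of `H` at `-1` is at most `∑ D j + n (n - 1) / 2 + μ`. -/
theorem zest_block (p : ℕ) [Fact p.Prime] [CharP F p] {ι : Type} [Fintype ι] (g : ι → F[X])
    (s : ι → ℕ × ℕ) (P : ι → F[X]) (D : ι → ℕ) (hg : ∀ j, g j = ph (s j) * P j)
    (hP : ∀ j, (P j).natDegree ≤ D j) (hdeg : ∀ j, (g j).natDegree < p) (H : F[X]) (M μ : ℕ)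
    (hH : H ∈ Submodule.span F (Set.range g)) (hM : (X + 1) ^ M ∣ H)
    (hH2 : H ∉ Submodule.span F (g '' {j | μ < (s j).2})) :
    2 * M ≤ 2 * ∑ j, D j + Fintype.card ι * (Fintype.card ι - 1) + 2 * μ := by
  classical
  obtain ⟨κ, a, ha, hspan, hli⟩ := exists_linearIndependent' F g
  have : Finite κ := Finite.of_injective a ha
  have : Fintype κ := Fintype.ofFinite κ
  set m := Fintype.card κ with hm
  have hmn : m ≤ Fintype.card ι := Fintype.card_le_of_injective a ha
  let en : Fin m ≃ κ := (Fintype.equivFin κ).symm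
  have hli2 : LinearIndependent F (fun j : Fin m => g (a (en j))) := hli.comp en en.injective
  have hrange : Set.range (fun j : Fin m => g (a (en j))) = Set.range (g ∘ a) := by
    ext x
    constructor
    · rintro ⟨j, rfl⟩
      exact ⟨en j, rfl⟩
    · rintro ⟨k, rfl⟩
      exact ⟨en.symm k, by simp⟩
  rw [← hspan, ← hrange] at hH
  obtain ⟨c, hc⟩ := (Submodule.mem_span_range_iff_exists_fun F).1 hH
  have hsum : H = ∑ j, C (c j) * g (a (en j)) := by
    rw [← hc]
    refine Finset.sum_congr rfl (fun j _ => ?_)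
    rw [Polynomial.smul_eq_C_mul]
  have hj0 : ∃ j0, c j0 ≠ 0 ∧ (s (a (en j0))).2 ≤ μ := by
    by_contra hcon
    push Not at hcon
    apply hH2
    rw [← hc]
    refine Submodule.sum_mem _ fun j _ => ?_
    by_cases h : c j = 0
    · rw [h, zero_smul]
      exact Submodule.zero_mem _
    · refine Submodule.smul_mem _ _ (Submodule.subset_span ⟨a (en j), ?_, rfl⟩)
      exact hcon j h
  obtain ⟨j0, hc0, hs0⟩ := hj0
  have h1 := zest_fin p m (fun j => g (a (en j))) (fun j => s (a (en j))) (fun j => P (a (en j)))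
    (fun j => D (a (en j))) (fun j => hg _) (fun j => hP _) (fun j => hdeg _) hli2 c M μ
    (hsum ▸ hM) j0 hc0 hs0
  have h2 : ∑ j : Fin m, D (a (en j)) ≤ ∑ j, D j := by
    have h3 : Function.Injective (fun j : Fin m => a (en j)) := ha.comp en.injective
    calc ∑ j : Fin m, D (a (en j)) = ∑ x ∈ (univ : Finset (Fin m)).image (fun j => a (en j)), D x := by
          rw [Finset.sum_image (fun x _ y _ h => h3 h)]
      _ ≤ ∑ j, D j := Finset.sum_le_sum_of_subset (Finset.subset_univ _)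
  have h3 : m * (m - 1) ≤ Fintype.card ι * (Fintype.card ι - 1) :=
    Nat.mul_le_mul hmn (Nat.sub_le_sub_right hmn 1)
  omega

end Pool.Agent.N957.RP
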