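import Mathlib
import Pool.Agent.N957.RP.Z
import Pool.Agent.Y374.RP.Star2

/-!
# Blocks of indices
-/

set_option autoImplicit false

namespace Pool.Agent.N957.RP

open Polynomial Finset Pool.Agent.TH350.WZ Pool.Agent.Y374.RP Pool.Agent.TH350.SumReg

section

variable (p : ℕ) [hp : Fact p.Prime]

lemma natDegree_ph (a b : ℕ) : (ph (a, b) : (ZMod p)[X]).natDegree ≤ a + b := by
  unfold ph
  refine natDegree_mul_le.trans ?_
  have h1 : (X ^ a : (ZMod p)[X]).natDegree ≤ a := natDegree_X_pow_le _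
  have h2 := X1_natDegree p b
  simp only
  omega

lemma blkA (w : ℕ → ZMod p) (W : Finset ℕ) (b e : ℕ) (hW : ∀ i ∈ W, b ≤ i ∧ i ≤ e) :
    ∃ P : (ZMod p)[X], ∑ i ∈ W, C (w i) * ((X + 1) * X ^ (2 * i)) = ph (2 * b, 1) * P ∧
      P.natDegree ≤ 2 * (e - b) := by
  refine ⟨∑ i ∈ W, C (w i) * X ^ (2 * (i - b)), ?_, ?_⟩
  · rw [Finset.mul_sum]
    refine Finset.sum_congr rfl fun i hi => ?_
    have := hW i hi
    unfold ph
    have e1 : (X : (ZMod p)[X]) ^ (2 * i) = X ^ (2 * b) * X ^ (2 * (i - b)) := by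
      rw [← pow_add]; congr 1; omega
    rw [e1]
    ring
  · refine natDegree_sum_le_of_forall_le _ _ fun i hi => ?_
    have := hW i hi
    exact (natDegree_C_mul_X_pow_le _ _).trans (by omega)

lemma blkB (w : ℕ → ZMod p) (W : Finset ℕ) (b e : ℕ) (hW : ∀ i ∈ W, b ≤ i ∧ i ≤ e) :
    ∃ P : (ZMod p)[X], ∑ i ∈ W, C (w i) * ph (1, 2 * i) = ph (1, 2 * b) * P ∧
      P.natDegree ≤ 2 * (e - b) := by
  refine ⟨∑ i ∈ W, C (w i) * (X + 1) ^ (2 * (i - b)), ?_, ?_⟩
  · rw [Finset.mul_sum]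
    refine Finset.sum_congr rfl fun i hi => ?_
    have := hW i hi
    unfold ph
    have e1 : (X + 1 : (ZMod p)[X]) ^ (2 * i) = (X + 1) ^ (2 * b) * (X + 1) ^ (2 * (i - b)) := by
      rw [← pow_add]; congr 1; omega
    simp only
    rw [e1]
    ring
  · refine natDegree_sum_le_of_forall_le _ _ fun i hi => ?_
    have := hW i hi
    exact ((natDegree_C_mul_le _ _).trans (X1_natDegree p _)).trans (by omega)

lemma blkC (N : ℕ) (w : ℕ → ZMod p) (W : Finset ℕ) (b e : ℕ) (hW : ∀ i ∈ W, b ≤ i ∧ i ≤ e)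
    (he : e ≤ N) :
    ∃ P : (ZMod p)[X], ∑ i ∈ W, C (w i) * ph (2 * (N - i), 2 * i) = ph (2 * (N - e), 2 * b) * P ∧
      P.natDegree ≤ 2 * (e - b) := by
  refine ⟨∑ i ∈ W, C (w i) * (X ^ (2 * (e - i)) * (X + 1) ^ (2 * (i - b))), ?_, ?_⟩
  · rw [Finset.mul_sum]
    refine Finset.sum_congr rfl fun i hi => ?_
    have := hW i hi
    unfold ph
    have e1 : (X + 1 : (ZMod p)[X]) ^ (2 * i) = (X + 1) ^ (2 * b) * (X + 1) ^ (2 * (i - b)) := by
      rw [← pow_add]; congr 1; omega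
    have e2 : (X : (ZMod p)[X]) ^ (2 * (N - i)) = X ^ (2 * (N - e)) * X ^ (2 * (e - i)) := by
      rw [← pow_add]; congr 1; omega
    simp only
    rw [e1, e2]
    ring
  · refine natDegree_sum_le_of_forall_le _ _ fun i hi => ?_
    have h0 := hW i hi
    refine (natDegree_C_mul_le _ _).trans (natDegree_mul_le.trans ?_)
    have h1 : (X ^ (2 * (e - i)) : (ZMod p)[X]).natDegree ≤ 2 * (e - i) := natDegree_X_pow_le _
    have h2 := X1_natDegree p (2 * (i - b))
    omega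

/-- the space of the combinations of the functions of the second and third kind with indices in `J` -/
def UU (N : ℕ) (J : Finset ℕ) : Submodule (ZMod p) (ZMod p)[X] where
  carrier := {x | ∃ β γ : ℕ → ZMod p, x = ∑ i ∈ J, (C (β i) * (ph (1, 2 * i) : (ZMod p)[X]) +
    C (γ i) * ph (2 * (N - i), 2 * i))}
  add_mem' := by
    rintro x y ⟨β, γ, rfl⟩ ⟨β', γ', rfl⟩
    refine ⟨fun i => β i + β' i, fun i => γ i + γ' i, ?_⟩
    rw [← Finset.sum_add_distrib]
    refine Finset.sum_congr rfl fun i _ => ?_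
    rw [C_add, C_add]
    ring
  zero_mem' := by
    refine ⟨fun _ => 0, fun _ => 0, ?_⟩
    symm
    refine Finset.sum_eq_zero fun i _ => ?_
    rw [C_0, zero_mul, zero_mul, add_zero]
  smul_mem' := by
    rintro c x ⟨β, γ, rfl⟩
    refine ⟨fun i => c * β i, fun i => c * γ i, ?_⟩
    rw [Polynomial.smul_eq_C_mul, Finset.mul_sum]
    refine Finset.sum_congr rfl fun i _ => ?_
    rw [C_mul, C_mul]
    ring

lemma mem_UU (N : ℕ) (J : Finset ℕ) (x : (ZMod p)[X]) : x ∈ UU p N J ↔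
    ∃ β γ : ℕ → ZMod p, x = ∑ i ∈ J, (C (β i) * (ph (1, 2 * i) : (ZMod p)[X]) +
    C (γ i) * ph (2 * (N - i), 2 * i)) := Iff.rfl

lemma B_mem_UU (N : ℕ) (J W : Finset ℕ) (hW : W ⊆ J) (w : ℕ → ZMod p) :
    ∑ i ∈ W, C (w i) * (ph (1, 2 * i) : (ZMod p)[X]) ∈ UU p N J := by
  classical
  refine ⟨fun i => if i ∈ W then w i else 0, fun _ => 0, ?_⟩
  rw [← Finset.sum_subset hW]
  · refine Finset.sum_congr rfl fun i hi => ?_
    beta_reduce
    rw [if_pos hi, C_0, zero_mul, add_zero]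
  · intro i _ hi
    beta_reduce
    rw [if_neg hi, C_0, zero_mul, zero_mul, add_zero]

lemma C_mem_UU (N : ℕ) (J W : Finset ℕ) (hW : W ⊆ J) (w : ℕ → ZMod p) :
    ∑ i ∈ W, C (w i) * (ph (2 * (N - i), 2 * i) : (ZMod p)[X]) ∈ UU p N J := by
  classical
  refine ⟨fun _ => 0, fun i => if i ∈ W then w i else 0, ?_⟩
  rw [← Finset.sum_subset hW]
  · refine Finset.sum_congr rfl fun i hi => ?_
    beta_reduce
    rw [if_pos hi, C_0, zero_mul, zero_add]
  · intro i _ hi
    beta_reduce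
    rw [if_neg hi, C_0, zero_mul, zero_mul, add_zero]

/-- the top functions are not a combination of the others -/
lemma top_notMem (N : ℕ) (hN : 2 * N + 3 ≤ p) (w : ℕ → ZMod p) (T J : Finset ℕ)
    (hT : T ⊆ range (N + 1)) (hJ : J ⊆ range (N + 1)) (hd : Disjoint T J) (t : ℕ) (ht : t ∈ T)
    (hw : w t ≠ 0) : ∑ i ∈ T, C (w i) * BC p N i ∉ UU p N J := by
  classical
  rintro ⟨β, γ, h⟩
  have h1 := BC_indep p N hN
    (fun i => if i ∈ J then - β i else if i ∈ T then w i else 0)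
    (fun i => if i ∈ J then - γ i else if i ∈ T then w i else 0) (by
      rw [← Finset.sum_subset (Finset.union_subset hT hJ), Finset.sum_union hd]
      · have e1 : ∑ x ∈ T, (C (if x ∈ J then - β x else if x ∈ T then w x else 0) *
            (ph (1, 2 * x) : (ZMod p)[X]) + C (if x ∈ J then - γ x else if x ∈ T then w x else 0) *
            ph (2 * (N - x), 2 * x)) = ∑ i ∈ T, C (w i) * BC p N i := by
          refine Finset.sum_congr rfl fun i hi => ?_
          have hiJ : i ∉ J := Finset.disjoint_left.1 hd hi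
          rw [if_neg hiJ, if_neg hiJ, if_pos hi, BC_eq]
          ring
        have e2 : ∑ x ∈ J, (C (if x ∈ J then - β x else if x ∈ T then w x else 0) *
            (ph (1, 2 * x) : (ZMod p)[X]) + C (if x ∈ J then - γ x else if x ∈ T then w x else 0) *
            ph (2 * (N - x), 2 * x)) = - ∑ i ∈ J, (C (β i) * (ph (1, 2 * i) : (ZMod p)[X]) +
            C (γ i) * ph (2 * (N - i), 2 * i)) := by
          rw [← Finset.sum_neg_distrib]
          refine Finset.sum_congr rfl fun i hi => ?_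
          rw [if_pos hi, if_pos hi, C_neg, C_neg]
          ring
        rw [e1, e2, h]
        ring
      · intro i _ hi
        rw [mem_union] at hi
        push Not at hi
        rw [if_neg hi.2, if_neg hi.2, if_neg hi.1, C_0, zero_mul, zero_mul, add_zero])
  have htJ : t ∉ J := Finset.disjoint_left.1 hd ht
  have h2 := (h1 t (hT ht)).1
  rw [if_neg htJ, if_pos ht] at h2
  exact hw h2

/-- the common part of both cases -/
theorem unified (N : ℕ) (hN : 2 * N + 3 ≤ p) (w : ℕ → ZMod p) (r : ℕ) (g0 : Fin r → (ZMod p)[X])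
    (e0 : Fin r → ℕ) (P0 : Fin r → (ZMod p)[X]) (D0 : Fin r → ℕ)
    (hg0 : ∀ j, g0 j = ph (e0 j, 0) * P0 j) (hP0 : ∀ j, (P0 j).natDegree ≤ D0 j)
    (hdeg0 : ∀ j, (g0 j).natDegree < p) {α : Type} (S1 S2 : Finset α)
    (b e : α → ℕ) (W : α → Finset ℕ) (hW : ∀ a, ∀ i ∈ W a, b a ≤ i ∧ i ≤ e a) (he : ∀ a, e a ≤ N)
    (J : Finset ℕ) (hWJ : ∀ a ∈ S2, W a ⊆ J) (H : (ZMod p)[X])
    (hH : H = ∑ j, g0 j + ∑ a ∈ S1, ∑ i ∈ W a, C (w i) * ((X + 1) * X ^ (2 * i)) -
      ∑ a ∈ S2, (∑ i ∈ W a, C (w i) * ph (1, 2 * i) + ∑ i ∈ W a, C (w i) * ph (2 * (N - i), 2 * i)))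
    (M : ℕ) (hM : (X + 1) ^ M ∣ H) (hH2 : H ∉ UU p N J) :
    2 * M ≤ 2 * (∑ j, D0 j + ∑ a ∈ S1, 2 * (e a - b a) + 2 * ∑ a ∈ S2, 2 * (e a - b a)) +
      (r + S1.card + 2 * S2.card) * (r + S1.card + 2 * S2.card - 1) + 2 := by
  classical
  choose PA hPA1 hPA2 using fun a => blkA p w (W a) (b a) (e a) (hW a)
  choose PB hPB1 hPB2 using fun a => blkB p w (W a) (b a) (e a) (hW a)
  choose PC hPC1 hPC2 using fun a => blkC p N w (W a) (b a) (e a) (hW a) (he a)
  let g : Fin r ⊕ (S1 ⊕ (S2 ⊕ S2)) → (ZMod p)[X] :=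
    Sum.elim g0 (Sum.elim (fun a => ∑ i ∈ W a, C (w i) * ((X + 1) * X ^ (2 * i)))
      (Sum.elim (fun a => ∑ i ∈ W a, C (w i) * ph (1, 2 * i))
        (fun a => ∑ i ∈ W a, C (w i) * ph (2 * (N - i), 2 * i))))
  let s : Fin r ⊕ (S1 ⊕ (S2 ⊕ S2)) → ℕ × ℕ :=
    Sum.elim (fun j => (e0 j, 0)) (Sum.elim (fun a => (2 * b a, 1))
      (Sum.elim (fun a => (1, 2 * b a)) (fun a => (2 * (N - e a), 2 * b a))))
  let P : Fin r ⊕ (S1 ⊕ (S2 ⊕ S2)) → (ZMod p)[X] :=
    Sum.elim P0 (Sum.elim (fun a => PA a) (Sum.elim (fun a => PB a) (fun a => PC a)))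
  let D : Fin r ⊕ (S1 ⊕ (S2 ⊕ S2)) → ℕ :=
    Sum.elim D0 (Sum.elim (fun a => 2 * (e a - b a)) (Sum.elim (fun a => 2 * (e a - b a))
      (fun a => 2 * (e a - b a))))
  have hpos : 0 < p := hp.out.pos
  have h := zest_block (F := ZMod p) p g s P D ?_ ?_ ?_ H M 1 ?_ hM ?_
  · have e1 : ∑ j, D j = ∑ j, D0 j + ∑ a ∈ S1, 2 * (e a - b a) + 2 * ∑ a ∈ S2, 2 * (e a - b a) := by
      rw [Fintype.sum_sum_type, Fintype.sum_sum_type, Fintype.sum_sum_type]
      simp only [D, Sum.elim_inl, Sum.elim_inr]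
      rw [Finset.sum_coe_sort S1 (fun a => 2 * (e a - b a)),
        Finset.sum_coe_sort S2 (fun a => 2 * (e a - b a))]
      ring
    have e2 : Fintype.card (Fin r ⊕ (S1 ⊕ (S2 ⊕ S2))) = r + S1.card + 2 * S2.card := by
      rw [Fintype.card_sum, Fintype.card_sum, Fintype.card_sum, Fintype.card_fin,
        Fintype.card_coe, Fintype.card_coe]
      ring
    rw [e1, e2] at h
    omega
  · rintro (j | a | a | a)
    · exact hg0 j
    · exact hPA1 a
    · exact hPB1 a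
    · exact hPC1 a
  · rintro (j | a | a | a)
    · exact hP0 j
    · exact hPA2 a
    · exact hPB2 a
    · exact hPC2 a
  · have hlt : ∀ (f : ℕ → (ZMod p)[X]) (a : α), (∀ i ∈ W a, (f i).natDegree ≤ 2 * N + 1) →
        (∑ i ∈ W a, C (w i) * f i).natDegree < p := by
      intro f a hf
      have : (∑ i ∈ W a, C (w i) * f i).natDegree ≤ 2 * N + 1 :=
        natDegree_sum_le_of_forall_le _ _ fun i hi => (natDegree_C_mul_le _ _).trans (hf i hi)
      omega
    rintro (j | a | a | a)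
    · exact hdeg0 j
    · refine hlt _ a fun i hi => ?_
      have h1 := hW a i hi
      have h2 := he a
      have h3 := natDegree_ph p (2 * i) 1
      have h4 : ((X + 1) * X ^ (2 * i) : (ZMod p)[X]) = ph (2 * i, 1) := by
        unfold ph; ring
      rw [h4]
      omega
    · refine hlt _ a fun i hi => ?_
      have h1 := hW a i hi
      have h2 := he a
      have h3 := natDegree_ph p 1 (2 * i)
      omega
    · refine hlt _ a fun i hi => ?_
      have h1 := hW a i hi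
      have h2 := he a
      have h3 := natDegree_ph p (2 * (N - i)) (2 * i)
      omega
  · rw [hH]
    refine Submodule.sub_mem _ (Submodule.add_mem _ (Submodule.sum_mem _ fun j _ => ?_)
      (Submodule.sum_mem _ fun a ha => ?_)) (Submodule.sum_mem _ fun a ha =>
      Submodule.add_mem _ ?_ ?_)
    · exact Submodule.subset_span ⟨Sum.inl j, rfl⟩
    · exact Submodule.subset_span ⟨Sum.inr (Sum.inl ⟨a, ha⟩), rfl⟩
    · exact Submodule.subset_span ⟨Sum.inr (Sum.inr (Sum.inl ⟨a, ha⟩)), rfl⟩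
    · exact Submodule.subset_span ⟨Sum.inr (Sum.inr (Sum.inr ⟨a, ha⟩)), rfl⟩
  · intro hcon
    apply hH2
    have hle : Submodule.span (ZMod p) (g '' {j | 1 < (s j).2}) ≤ UU p N J := by
      rw [Submodule.span_le]
      rintro x ⟨j, hj, rfl⟩
      rcases j with j | a | a | a
      · exact absurd hj (by simp [s])
      · exact absurd hj (by simp [s])
      · exact B_mem_UU p N J (W a) (hWJ a a.2) w
      · exact C_mem_UU p N J (W a) (hWJ a a.2) w
    exact hle hcon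

end

end Pool.Agent.N957.RP
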