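import Mathlib
import Pool.Agent.N957.RP.Blk

/-!
# The representations as a sum of two regular indices are not covered by few short intervals
-/

set_option autoImplicit false

namespace Pool.Agent.N957.RP

open Polynomial Finset Pool.Agent.TH350.WZ Pool.Agent.Y374.RP Pool.Agent.TH350.SumReg
open Pool.Agent.H332R2

section

variable (p : ℕ) [hp : Fact p.Prime]

lemma natDegree_low (i : ℕ) :
    ((X + 1) * X ^ (2 * i) - X * (X + 1) ^ (2 * i) : (ZMod p)[X]).natDegree ≤ 2 * i := by
  rw [natDegree_le_iff_coeff_eq_zero]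
  intro n hn
  obtain ⟨m, rfl⟩ : ∃ m, n = m + 1 := ⟨n - 1, by omega⟩
  rw [coeff_sub, add_mul, one_mul, coeff_add, coeff_X_mul, coeff_X_mul, coeff_X_pow, coeff_X_pow,
    coeff_X_add_one_pow, if_neg (show ¬ (m + 1 = 2 * i) by omega)]
  by_cases h : m = 2 * i
  · rw [if_pos h, h, Nat.choose_self]; simp
  · rw [if_neg h, Nat.choose_eq_zero_of_lt (by omega)]; simp

lemma top_fac (i : ℕ) : ∃ U : (ZMod p)[X], (X + 1) - (X + 1) ^ (2 * i) = X * U ∧
    U.natDegree ≤ 2 * i := by
  have h : X ∣ ((X + 1) - (X + 1) ^ (2 * i) : (ZMod p)[X]) := by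
    rw [X_dvd_iff, coeff_sub, X1_coeff_zero]
    simp
  obtain ⟨U, hU⟩ := h
  refine ⟨U, hU, ?_⟩
  by_cases h0 : U = 0
  · rw [h0, natDegree_zero]; omega
  · have h1 : (X * U).natDegree = U.natDegree + 1 := by
      rw [mul_comm, natDegree_mul_X h0]
    have h2 : (X + 1 - (X + 1) ^ (2 * i) : (ZMod p)[X]).natDegree ≤ max 1 (2 * i) := by
      refine (natDegree_sub_le _ _).trans (max_le_max ?_ (X1_natDegree p _))
      compute_degree
    rw [hU, h1] at h2
    rcases Nat.eq_zero_or_pos i with hi | hi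
    · subst hi
      simp at h2
      omega
    · have : max 1 (2 * i) = 2 * i := max_eq_right (by omega)
      omega

/-- a partition of `J` subordinate to a cover -/
lemma partition {α : Type} (S : Finset α) (b e : α → ℕ) (J : Finset ℕ) (N : ℕ)
    (hJN : ∀ i ∈ J, i ≤ N) (hcov : ∀ i ∈ J, ∃ a ∈ S, b a ≤ i ∧ i ≤ e a) :
    ∃ W : α → Finset ℕ, (∀ a, W a ⊆ J) ∧ (∀ a, ∀ i ∈ W a, b a ≤ i ∧ i ≤ min (e a) N) ∧
      (∀ f : ℕ → (ZMod p)[X], ∑ a ∈ S, ∑ i ∈ W a, f i = ∑ i ∈ J, f i) ∧
      (∀ i ∈ J, ∃ a ∈ S, i ∈ W a) ∧ ∀ a a', a ≠ a' → Disjoint (W a) (W a') := by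
  classical
  have hex : ∀ i, ∃ o : Option α, i ∈ J → ∃ a ∈ S, o = some a ∧ b a ≤ i ∧ i ≤ e a := by
    intro i
    by_cases h : i ∈ J
    · obtain ⟨a, h1, h2, h3⟩ := hcov i h
      exact ⟨some a, fun _ => ⟨a, h1, rfl, h2, h3⟩⟩
    · exact ⟨none, fun h' => absurd h' h⟩
  choose l hl using hex
  refine ⟨fun a => J.filter (fun i => l i = some a), fun a => filter_subset _ _, ?_, ?_, ?_, ?_⟩
  · intro a i hi
    rw [mem_filter] at hi
    obtain ⟨a', _, h1, h2, h3⟩ := hl i hi.1
    have h4 : a = a' := by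
      rw [hi.2] at h1
      exact Option.some.inj h1
    subst h4
    exact ⟨h2, le_min h3 (hJN i hi.1)⟩
  · intro f
    simp only [Finset.sum_filter]
    rw [Finset.sum_comm]
    refine Finset.sum_congr rfl fun i hi => ?_
    obtain ⟨a', h0, h1, h2, h3⟩ := hl i hi
    rw [Finset.sum_eq_single a']
    · rw [if_pos h1]
    · intro a _ ha
      rw [if_neg]
      intro h
      rw [h1] at h
      exact ha (Option.some.inj h).symm
    · intro h
      exact absurd h0 h
  · intro i hi
    obtain ⟨a', h0, h1, h2, h3⟩ := hl i hi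
    exact ⟨a', h0, mem_filter.2 ⟨hi, h1⟩⟩
  · intro a a' haa
    rw [Finset.disjoint_left]
    intro i hi hi'
    rw [mem_filter] at hi hi'
    apply haa
    have := hi.2.symm.trans hi'.2
    exact Option.some.inj this

lemma dvd_BC (N i m : ℕ) (h : m ≤ 2 * i) : (X + 1 : (ZMod p)[X]) ^ m ∣ BC p N i := by
  unfold BC
  have h1 : (X + 1 : (ZMod p)[X]) ^ m ∣ (X + 1) ^ (2 * i) := pow_dvd_pow _ h
  exact dvd_add (h1.mul_left _) (h1.mul_left _)

end

section Cases

variable (p : ℕ) [hp : Fact p.Prime] (N V : ℕ) (hN : 2 * N + 3 ≤ p) (hN2 : 2 ≤ N) (hV : 2 * V < N)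
  {α : Type} (S : Finset α) (b e : α → ℕ)
  (hcov : ∀ i, V < i → i < N - V → ww p N i ≠ 0 → ∃ a ∈ S, b a ≤ i ∧ i ≤ e a)

include hN hN2 hV hcov in
theorem case1 (hne : ∃ i, i ≤ V ∧ ww p N i ≠ 0) :
    4 * N ≤ 12 * V + 12 * ∑ a ∈ S, (e a - b a) + 9 * S.card ^ 2 + 9 * S.card + 4 := by
  classical
  set J := JJ p N V with hJ
  have hJm : ∀ i, i ∈ J ↔ (V < i ∧ i < N - V) ∧ ww p N i ≠ 0 := mem_JJ p N V
  set w : ℕ → ZMod p := ww p N with hw
  have hsym : ∀ i, i ≤ N → w (N - i) = w i := fun i hi => ww_symm p N i hi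
  obtain ⟨W, hWJ, hWb, hWsum, hWmem, hWdisj⟩ := partition p S b e J N
    (fun i hi => by have := (hJm i).1 hi; omega)
    (fun i hi => hcov i ((hJm i).1 hi).1.1 ((hJm i).1 hi).1.2 ((hJm i).1 hi).2)
  choose U hU1 hU2 using fun i => top_fac p i
  set Ql : (ZMod p)[X] := ∑ i ∈ range (V + 1), C (w i) * ((X + 1) * X ^ (2 * i) - X * (X + 1) ^ (2 * i))
    with hQl
  set Pt : (ZMod p)[X] := ∑ i ∈ range (V + 1), C (w i) * (X ^ (2 * (V - i)) * U i) with hPt
  set Qt : (ZMod p)[X] := ph (2 * (N - V) + 1, 0) * Pt with hQt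
  have hQt2 : Qt = ∑ i ∈ range (V + 1), C (w i) * ((X + 1) * X ^ (2 * (N - i)) -
      X ^ (2 * (N - i)) * (X + 1) ^ (2 * i)) := by
    rw [hQt, hPt, Finset.mul_sum]
    refine Finset.sum_congr rfl fun i hi => ?_
    rw [mem_range] at hi
    have e1 : (X : (ZMod p)[X]) ^ (2 * (N - i)) = X ^ (2 * (N - V)) * X ^ (2 * (V - i)) := by
      rw [← pow_add]; congr 1; omega
    unfold ph
    simp only
    rw [e1, pow_zero, mul_one, pow_succ]
    linear_combination (-(C (w i) * X ^ (2 * (N - V)) * X ^ (2 * (V - i)))) * hU1 i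
  set H : (ZMod p)[X] := ∑ i ∈ Icc (N - V) N, C (w i) * BC p N i with hH
  have hsplit : ∀ f : ℕ → (ZMod p)[X], (∀ i, w i = 0 → f i = 0) → ∑ i ∈ range (N + 1), f i =
      ∑ i ∈ range (V + 1), f i + ∑ i ∈ J, f i + ∑ i ∈ Icc (N - V) N, f i := by
    intro f hf
    have h0 : range (N + 1) = (range (V + 1) ∪ Ioo V (N - V)) ∪ Icc (N - V) N := by
      ext i
      rw [mem_union, mem_union, mem_range, mem_range, mem_Ioo, mem_Icc]
      omega
    rw [h0, sum_union, sum_union]
    · congr 2
      rw [hJ]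
      unfold JJ
      rw [sum_filter]
      refine sum_congr rfl fun i _ => ?_
      split_ifs with h
      · rfl
      · push Not at h
        exact hf i h
    · rw [disjoint_left]
      intro i hi hi'
      rw [mem_range] at hi
      rw [mem_Ioo] at hi'
      omega
    · rw [disjoint_left]
      intro i hi hi'
      rw [mem_union, mem_range, mem_Ioo] at hi
      rw [mem_Icc] at hi'
      omega
  have hrefl : ∑ i ∈ Icc (N - V) N, C (w i) * ((X + 1) * (X : (ZMod p)[X]) ^ (2 * i)) =
      ∑ i ∈ range (V + 1), C (w i) * ((X + 1) * X ^ (2 * (N - i))) := by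
    refine Finset.sum_nbij' (fun i => N - i) (fun i => N - i) ?_ ?_ ?_ ?_ ?_
    · intro i hi
      rw [mem_Icc] at hi
      rw [mem_range]; omega
    · intro i hi
      rw [mem_range] at hi
      rw [mem_Icc]; omega
    · intro i hi
      rw [mem_Icc] at hi
      omega
    · intro i hi
      rw [mem_range] at hi
      omega
    · intro i hi
      rw [mem_Icc] at hi
      rw [hsym i hi.2, show N - (N - i) = i by omega]
  have hHe : H = ∑ j, (![Ql, Qt] : Fin 2 → (ZMod p)[X]) j +
      ∑ a ∈ S, ∑ i ∈ W a, C (w i) * ((X + 1) * X ^ (2 * i)) -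
      ∑ a ∈ S, (∑ i ∈ W a, C (w i) * ph (1, 2 * i) + ∑ i ∈ W a, C (w i) * ph (2 * (N - i), 2 * i)) := by
    have h1 := relation p N hN hN2
    rw [← hw] at h1
    rw [hsplit _ (fun i hi => by rw [hi, C_0, zero_mul]),
      hsplit _ (fun i hi => by rw [hi, C_0, zero_mul]), hrefl] at h1
    rw [Fin.sum_univ_two]
    simp only [Matrix.cons_val_zero, Matrix.cons_val_one]
    have h2 : ∑ a ∈ S, (∑ i ∈ W a, C (w i) * (ph (1, 2 * i) : (ZMod p)[X]) +
        ∑ i ∈ W a, C (w i) * ph (2 * (N - i), 2 * i)) = ∑ i ∈ J, C (w i) * BC p N i := by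
      rw [← hWsum]
      refine Finset.sum_congr rfl fun a _ => ?_
      rw [← Finset.sum_add_distrib]
      refine Finset.sum_congr rfl fun i _ => ?_
      rw [BC_eq]; ring
    rw [h2, hWsum, hQt2, hQl]
    have h3 : ∑ i ∈ range (V + 1), C (w i) * ((X + 1) * (X : (ZMod p)[X]) ^ (2 * i) -
        X * (X + 1) ^ (2 * i)) + ∑ i ∈ range (V + 1), C (w i) * ((X + 1) * X ^ (2 * (N - i)) -
        X ^ (2 * (N - i)) * (X + 1) ^ (2 * i)) =
        ∑ i ∈ range (V + 1), C (w i) * ((X + 1) * X ^ (2 * i)) +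
        ∑ i ∈ range (V + 1), C (w i) * ((X + 1) * X ^ (2 * (N - i))) -
        ∑ i ∈ range (V + 1), C (w i) * BC p N i := by
      rw [← Finset.sum_add_distrib, ← Finset.sum_add_distrib, ← Finset.sum_sub_distrib]
      refine Finset.sum_congr rfl fun i _ => ?_
      unfold BC
      ring
    rw [h3, hH]
    linear_combination -h1
  have huni := unified p N hN w 2 ![Ql, Qt] ![0, 2 * (N - V) + 1] ![Ql, Pt] ![2 * V, 2 * V]
    ?_ ?_ ?_ S S b (fun a => min (e a) N) W hWb (fun a => min_le_right _ _) J (fun a _ => hWJ a) H hHe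
    (2 * (N - V)) ?_ ?_
  · rw [Fin.sum_univ_two] at huni
    simp only [Matrix.cons_val_zero, Matrix.cons_val_one] at huni
    have hle : ∑ a ∈ S, 2 * (min (e a) N - b a) ≤ 2 * ∑ a ∈ S, (e a - b a) := by
      rw [Finset.mul_sum]
      refine Finset.sum_le_sum fun a _ => ?_
      have : min (e a) N ≤ e a := min_le_left _ _
      omega
    have h1 : (2 + S.card + 2 * S.card) * (2 + S.card + 2 * S.card - 1) =
        9 * S.card ^ 2 + 9 * S.card + 2 := by
      have : 2 + S.card + 2 * S.card - 1 = 1 + 3 * S.card := by omega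
      rw [this]; ring
    rw [h1] at huni
    set L2 := S.card ^ 2
    omega
  · intro j
    fin_cases j
    · simp [ph]
    · simp [hQt]
  · intro j
    fin_cases j
    · simp only [Fin.zero_eta, Matrix.cons_val_zero]
      rw [hQl]
      refine natDegree_sum_le_of_forall_le _ _ fun i hi => ?_
      rw [mem_range] at hi
      refine (natDegree_C_mul_le _ _).trans ((natDegree_low p i).trans (by omega))
    · have h0 : Pt.natDegree ≤ 2 * V := by
        rw [hPt]
        refine natDegree_sum_le_of_forall_le _ _ fun i hi => ?_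
        rw [mem_range] at hi
        refine (natDegree_C_mul_le _ _).trans (natDegree_mul_le.trans ?_)
        have h1 : (X ^ (2 * (V - i)) : (ZMod p)[X]).natDegree ≤ 2 * (V - i) := natDegree_X_pow_le _
        have h2 := hU2 i
        omega
      simpa using h0
  · intro j
    fin_cases j
    · simp only [Fin.zero_eta, Matrix.cons_val_zero]
      have : Ql.natDegree ≤ 2 * V := by
        rw [hQl]
        refine natDegree_sum_le_of_forall_le _ _ fun i hi => ?_
        rw [mem_range] at hi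
        refine (natDegree_C_mul_le _ _).trans ((natDegree_low p i).trans (by omega))
      omega
    · simp only [Fin.mk_one, Matrix.cons_val_one, Matrix.cons_val_zero]
      have : Qt.natDegree ≤ 2 * N + 1 := by
        rw [hQt2]
        refine natDegree_sum_le_of_forall_le _ _ fun i hi => ?_
        rw [mem_range] at hi
        refine (natDegree_C_mul_le _ _).trans ((natDegree_sub_le _ _).trans (max_le ?_ ?_))
        · have h3 := natDegree_ph p (2 * (N - i)) 1
          have h4 : ((X + 1) * X ^ (2 * (N - i)) : (ZMod p)[X]) = ph (2 * (N - i), 1) := by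
            unfold ph; ring
          rw [h4]; omega
        · have h3 := natDegree_ph p (2 * (N - i)) (2 * i)
          have h4 : (X ^ (2 * (N - i)) * (X + 1) ^ (2 * i) : (ZMod p)[X]) =
            ph (2 * (N - i), 2 * i) := rfl
          rw [h4]; omega
      omega
  · rw [hH]
    refine Finset.dvd_sum fun i hi => ?_
    rw [mem_Icc] at hi
    exact Dvd.dvd.mul_left (dvd_BC p N i _ (by omega)) _
  · obtain ⟨i, hi, hwi⟩ := hne
    refine top_notMem p N hN w (Icc (N - V) N) J ?_ ?_ ?_ (N - i) ?_ ?_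
    · intro j hj
      rw [mem_Icc] at hj
      rw [mem_range]; omega
    · intro j hj
      have := (hJm j).1 hj
      rw [mem_range]; omega
    · rw [disjoint_left]
      intro j hj hj'
      rw [mem_Icc] at hj
      have := (hJm j).1 hj'
      omega
    · rw [mem_Icc]; omega
    · rw [hsym i (by omega)]
      exact hwi

include hN hN2 hV hcov in
theorem case2 (hno : ∀ i, i ≤ V → ww p N i = 0) :
    4 * N ≤ 14 * ∑ a ∈ S, (e a - b a) + 9 * S.card ^ 2 + 9 * S.card + 4 := by
  classical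
  set J := JJ p N V with hJ
  have hJm : ∀ i, i ∈ J ↔ (V < i ∧ i < N - V) ∧ ww p N i ≠ 0 := mem_JJ p N V
  set w : ℕ → ZMod p := ww p N with hw
  have hsym : ∀ i, i ≤ N → w (N - i) = w i := fun i hi => ww_symm p N i hi
  obtain ⟨W, hWJ, hWb, hWsum, hWmem, hWdisj⟩ := partition p S b e J N
    (fun i hi => by have := (hJm i).1 hi; omega)
    (fun i hi => hcov i ((hJm i).1 hi).1.1 ((hJm i).1 hi).1.2 ((hJm i).1 hi).2)
  have hall : ∀ i, i ≤ N → w i ≠ 0 → i ∈ J := by
    intro i hi hwi
    rw [hJm]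
    refine ⟨⟨?_, ?_⟩, hwi⟩
    · by_contra h
      exact hwi (hno i (by omega))
    · by_contra h
      have := hno (N - i) (by omega)
      rw [hsym i hi] at this
      exact hwi this
  have hJne : J.Nonempty := by
    obtain ⟨i, h1, h2, h3⟩ := two_exists_all p N hN hN2
    exact ⟨i, hall i h1 (by rw [hw]; unfold ww; exact mul_ne_zero h2 h3)⟩
  set k := J.min' hJne with hk
  have hkJ : k ∈ J := J.min'_mem hJne
  have hkmin : ∀ i ∈ J, k ≤ i := fun i hi => J.min'_le i hi
  have hJ1 : ∀ i ∈ J, 1 ≤ i ∧ i < N := by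
    intro i hi
    have := (hJm i).1 hi
    omega
  have hk1 := hJ1 k hkJ
  have hkw : w k ≠ 0 := ((hJm k).1 hkJ).2
  have hNkJ : N - k ∈ J := by
    refine hall (N - k) (by omega) ?_
    rw [hsym k (by omega)]
    exact hkw
  have hJr : J ⊆ range (N + 1) := by
    intro i hi
    have := hJ1 i hi
    rw [mem_range]; omega
  -- the relation
  have hrel : ∑ i ∈ J, C (w i) * ((X + 1) * (X : (ZMod p)[X]) ^ (2 * i)) =
      ∑ i ∈ J, C (w i) * BC p N i := by
    have h1 := relation p N hN hN2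
    rw [← hw] at h1
    have h2 : ∀ g : ℕ → (ZMod p)[X], ∑ i ∈ range (N + 1), C (w i) * g i = ∑ i ∈ J, C (w i) * g i := by
      intro g
      refine (sum_subset hJr fun i hi hiJ => ?_).symm
      rw [mem_range] at hi
      have : w i = 0 := by
        by_contra h
        exact hiJ (hall i (by omega) h)
      rw [this, C_0, zero_mul]
    rw [h2, h2] at h1
    exact h1
  have hX1 : (X + 1 : (ZMod p)[X]) ≠ 0 := X_add_C_ne_zero 1
  -- the smallest index is small
  have hka : 2 * k ≤ J.card := by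
    set E : Finset ℕ := J.image (fun i => 2 * i) with hE
    have hEc : E.card ≤ J.card := card_image_le
    have hEp : ∀ a ∈ E, a < p := by
      intro a ha
      rw [hE, mem_image] at ha
      obtain ⟨i, hi, rfl⟩ := ha
      have := hJ1 i hi
      omega
    have hEsum : ∑ a ∈ E, C (w (a / 2)) * (X : (ZMod p)[X]) ^ a =
        ∑ i ∈ J, C (w i) * (X : (ZMod p)[X]) ^ (2 * i) := by
      rw [hE, sum_image]
      · refine sum_congr rfl fun i _ => ?_
        rw [show 2 * i / 2 = i by omega]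
      · intro a _ b _ h
        simp only at h
        omega
    have hEpos : 0 < E.card := by
      rw [card_pos]
      exact ⟨2 * k, mem_image.2 ⟨k, hkJ, rfl⟩⟩
    have hz := zest_gen (F := ZMod p) p E hEp ∅ (fun t ht => absurd ht (notMem_empty t))
      (fun a => w (a / 2)) (fun _ => 0) (2 * k - 1) ?_ ?_
    · rw [card_empty] at hz
      omega
    · rw [sum_empty, add_zero, hEsum]
      have h1 : (X + 1 : (ZMod p)[X]) ^ (2 * k) ∣
          (X + 1) * ∑ i ∈ J, C (w i) * (X : (ZMod p)[X]) ^ (2 * i) := by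
        have h2 : (X + 1) * ∑ i ∈ J, C (w i) * (X : (ZMod p)[X]) ^ (2 * i) =
            ∑ i ∈ J, C (w i) * BC p N i := by
          rw [← hrel, Finset.mul_sum]
          refine sum_congr rfl fun i _ => ?_
          ring
        rw [h2]
        refine Finset.dvd_sum fun i hi => Dvd.dvd.mul_left (dvd_BC p N i _ ?_) _
        have := hkmin i hi
        omega
      obtain ⟨m, hm⟩ : ∃ m, 2 * k = m + 1 := ⟨2 * k - 1, by omega⟩
      rw [hm, pow_succ'] at h1
      rw [hm, Nat.add_sub_cancel]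
      exact (mul_dvd_mul_iff_left hX1).1 h1
    · intro d'
      rw [sum_empty, sum_empty, add_zero, hEsum]
      intro h0
      have h1 := congrArg (fun P => coeff P (2 * k)) h0
      simp only [finsetSum_coeff, coeff_C_mul, coeff_X_pow, coeff_zero] at h1
      rw [sum_eq_single k] at h1
      · rw [if_pos rfl, mul_one] at h1
        exact hkw h1
      · intro b _ hbk
        rw [if_neg (by omega), mul_zero]
      · intro h
        exact absurd hkJ h
  -- the number of all indices
  have hJc : J.card ≤ ∑ a ∈ S, (e a - b a) + S.card := by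
    have h1 : J ⊆ S.biUnion W := by
      intro i hi
      rw [mem_biUnion]
      exact hWmem i hi
    calc J.card ≤ (S.biUnion W).card := card_le_card h1
      _ ≤ ∑ a ∈ S, (W a).card := card_biUnion_le
      _ ≤ ∑ a ∈ S, ((e a - b a) + 1) := by
          refine Finset.sum_le_sum fun a _ => ?_
          have h2 : W a ⊆ Icc (b a) (e a) := by
            intro i hi
            have := hWb a i hi
            have h3 : min (e a) N ≤ e a := min_le_left _ _
            rw [mem_Icc]
            omega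
          have h3 := card_le_card h2
          rw [Nat.card_Icc] at h3
          omega
      _ = ∑ a ∈ S, (e a - b a) + S.card := by
          rw [Finset.sum_add_distrib, Finset.sum_const, smul_eq_mul, mul_one]
  -- the top block
  obtain ⟨T, hTS, hTW⟩ := hWmem (N - k) hNkJ
  set H : (ZMod p)[X] := ∑ i ∈ W T, C (w i) * BC p N i with hH
  have hHe : H = ∑ j : Fin 0, (![] : Fin 0 → (ZMod p)[X]) j +
      ∑ a ∈ S, ∑ i ∈ W a, C (w i) * ((X + 1) * X ^ (2 * i)) -
      ∑ a ∈ S.erase T, (∑ i ∈ W a, C (w i) * ph (1, 2 * i) +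
        ∑ i ∈ W a, C (w i) * ph (2 * (N - i), 2 * i)) := by
    have h2 : ∑ a ∈ S, (∑ i ∈ W a, C (w i) * (ph (1, 2 * i) : (ZMod p)[X]) +
        ∑ i ∈ W a, C (w i) * ph (2 * (N - i), 2 * i)) = ∑ i ∈ J, C (w i) * BC p N i := by
      rw [← hWsum]
      refine Finset.sum_congr rfl fun a _ => ?_
      rw [← Finset.sum_add_distrib]
      refine Finset.sum_congr rfl fun i _ => ?_
      rw [BC_eq]; ring
    have h3 : ∑ i ∈ W T, C (w i) * (ph (1, 2 * i) : (ZMod p)[X]) +
        ∑ i ∈ W T, C (w i) * ph (2 * (N - i), 2 * i) = H := by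
      rw [hH, ← Finset.sum_add_distrib]
      refine Finset.sum_congr rfl fun i _ => ?_
      rw [BC_eq]; ring
    rw [← Finset.add_sum_erase _ _ hTS, h3] at h2
    rw [hWsum, hrel, ← h2]
    simp
  have hTb := hWb T (N - k) hTW
  have huni := unified p N hN w 0 ![] ![] ![] ![] (fun j => j.elim0) (fun j => j.elim0)
    (fun j => j.elim0) S (S.erase T) b (fun a => min (e a) N) W hWb (fun a => min_le_right _ _)
    (J \ W T) ?_ H hHe (2 * b T) ?_ ?_
  · have hsum1 : ∑ a ∈ S.erase T, 2 * (min (e a) N - b a) + 2 * (min (e T) N - b T) =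
        ∑ a ∈ S, 2 * (min (e a) N - b a) := Finset.sum_erase_add _ _ hTS
    have hle : ∑ a ∈ S, 2 * (min (e a) N - b a) ≤ 2 * ∑ a ∈ S, (e a - b a) := by
      rw [Finset.mul_sum]
      refine Finset.sum_le_sum fun a _ => ?_
      have : min (e a) N ≤ e a := min_le_left _ _
      omega
    rw [card_erase_of_mem hTS, Finset.univ_eq_empty, Finset.sum_empty] at huni
    have hS1 : 1 ≤ S.card := card_pos.2 ⟨T, hTS⟩
    obtain ⟨σ, hσ⟩ : ∃ σ, S.card = σ + 1 := ⟨S.card - 1, by omega⟩
    rw [hσ] at huni hJc ⊢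
    have e1 : (0 + (σ + 1) + 2 * (σ + 1 - 1)) * (0 + (σ + 1) + 2 * (σ + 1 - 1) - 1) =
        9 * σ ^ 2 + 3 * σ := by
      have h1 : 0 + (σ + 1) + 2 * (σ + 1 - 1) = 3 * σ + 1 := by omega
      rw [h1, Nat.add_sub_cancel]; ring
    have e2 : 9 * (σ + 1) ^ 2 = 9 * σ ^ 2 + 18 * σ + 9 := by ring
    rw [e1] at huni
    rw [e2]
    set L2 := σ ^ 2
    omega
  · intro a ha i hi
    rw [mem_sdiff]
    refine ⟨hWJ a hi, fun h => ?_⟩
    exact Finset.disjoint_left.1 (hWdisj a T (ne_of_mem_erase ha)) hi h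
  · rw [hH]
    refine Finset.dvd_sum fun i hi => ?_
    have := hWb T i hi
    exact Dvd.dvd.mul_left (dvd_BC p N i _ (by omega)) _
  · exact top_notMem p N hN w (W T) (J \ W T) ((hWJ T).trans hJr) (sdiff_subset.trans hJr)
      disjoint_sdiff (N - k) hTW (by rw [hsym k (by omega)]; exact hkw)

include hN hN2 hV hcov in
/-- The main theorem: if the `i`, `V < i < N - V`, such that `i` and `N - i` are both regular indices
are covered by `L` intervals `[b, e]` then `4 N ≤ 12 V + 14 ∑ (e - b) + 9 L (L + 1) + 4`. -/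
theorem spread :
    4 * N ≤ 12 * V + 14 * ∑ a ∈ S, (e a - b a) + 9 * (S.card * (S.card + 1)) + 4 := by
  have e0 : 9 * (S.card * (S.card + 1)) = 9 * S.card ^ 2 + 9 * S.card := by ring
  rw [e0]
  by_cases h : ∃ i, i ≤ V ∧ ww p N i ≠ 0
  · have := case1 p N V hN hN2 hV S b e hcov h
    set L2 := S.card ^ 2
    omega
  · push Not at h
    have := case2 p N V hN hN2 hV S b e hcov h
    set L2 := S.card ^ 2
    omega

end Cases

end Pool.Agent.N957.RP
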