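import Mathlib
import Pool.Agent.N957.RP.Spread
import Pool.Agent.R361.RegCount

/-!
# The regular indices are not covered by few short intervals
-/

set_option autoImplicit false

namespace Pool.Agent.N957.RP

open Finset Pool.Agent.Y374.RP Pool.Agent.TH350.SumReg Pool.Agent.H332R2

section Comb

variable {α : Type} (S : Finset α) (b e : α → ℕ)

/-- the pairs of intervals whose sum set contains `N` -/
noncomputable def SN (N : ℕ) : Finset (α × α) := by
  classical
  exact (S ×ˢ S).filter (fun q => b q.1 ≤ e q.1 ∧ b q.2 ≤ e q.2 ∧ b q.1 + b q.2 ≤ N ∧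
    N ≤ e q.1 + e q.2)

lemma mem_SN (N : ℕ) (q : α × α) : q ∈ SN S b e N ↔ (q.1 ∈ S ∧ q.2 ∈ S) ∧ b q.1 ≤ e q.1 ∧
    b q.2 ≤ e q.2 ∧ b q.1 + b q.2 ≤ N ∧ N ≤ e q.1 + e q.2 := by
  classical
  unfold SN
  rw [mem_filter, mem_product]

lemma sum_card_SN (T : Finset ℕ) :
    ∑ N ∈ T, (SN S b e N).card ≤ S.card * (S.card + 2 * ∑ a ∈ S, (e a - b a)) := by
  classical
  have h1 : ∀ N, (SN S b e N).card = ∑ q ∈ S ×ˢ S, if q ∈ SN S b e N then 1 else 0 := by
    intro N
    rw [← Finset.card_filter]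
    congr 1
    ext q
    rw [mem_filter, mem_product, mem_SN]
    tauto
  simp only [h1]
  rw [Finset.sum_comm]
  have h2 : ∀ q ∈ S ×ˢ S, (∑ N ∈ T, if q ∈ SN S b e N then 1 else 0) ≤
      1 + (e q.1 - b q.1) + (e q.2 - b q.2) := by
    intro q _
    rw [← Finset.card_filter]
    by_cases hq : b q.1 ≤ e q.1 ∧ b q.2 ≤ e q.2
    · have h3 : T.filter (fun N => q ∈ SN S b e N) ⊆ Icc (b q.1 + b q.2) (e q.1 + e q.2) := by
        intro N hN
        rw [mem_filter, mem_SN] at hN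
        rw [mem_Icc]
        exact ⟨hN.2.2.2.2.1, hN.2.2.2.2.2⟩
      have h4 := card_le_card h3
      rw [Nat.card_Icc] at h4
      omega
    · have h3 : T.filter (fun N => q ∈ SN S b e N) = ∅ := by
        rw [Finset.filter_eq_empty_iff]
        intro N _ hN
        rw [mem_SN] at hN
        exact hq ⟨hN.2.1, hN.2.2.1⟩
      rw [h3, card_empty]
      omega
  refine (Finset.sum_le_sum h2).trans (le_of_eq ?_)
  rw [Finset.sum_add_distrib, Finset.sum_add_distrib, Finset.sum_product, Finset.sum_product,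
    Finset.sum_product]
  simp only [Finset.sum_const, smul_eq_mul, mul_one]
  rw [← Finset.mul_sum]
  ring

lemma sum_len_SN (T : Finset ℕ) :
    ∑ N ∈ T, ∑ q ∈ SN S b e N, (min (e q.1) (N - b q.2) - max (b q.1) (N - e q.2)) ≤
      (∑ a ∈ S, (e a - b a)) ^ 2 := by
  classical
  have h1 : ∀ N, ∑ q ∈ SN S b e N, (min (e q.1) (N - b q.2) - max (b q.1) (N - e q.2)) ≤
      ∑ q ∈ S ×ˢ S, (min (e q.1) (N - b q.2) - max (b q.1) (N - e q.2)) := by
    intro N
    refine Finset.sum_le_sum_of_subset fun q hq => ?_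
    rw [mem_SN] at hq
    rw [mem_product]
    exact hq.1
  refine (Finset.sum_le_sum fun N _ => h1 N).trans ?_
  rw [Finset.sum_comm]
  have h2 : ∀ q ∈ S ×ˢ S, ∑ N ∈ T, (min (e q.1) (N - b q.2) - max (b q.1) (N - e q.2)) ≤
      (e q.1 - b q.1) * (e q.2 - b q.2) := by
    intro q _
    have h3 : ∀ N, min (e q.1) (N - b q.2) - max (b q.1) (N - e q.2) =
        (Ico (max (b q.1) (N - e q.2)) (min (e q.1) (N - b q.2))).card := by
      intro N
      rw [Nat.card_Ico]
    simp only [h3]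
    rw [← Finset.card_sigma, ← Nat.card_Ico, ← Nat.card_Ioc, ← Finset.card_product]
    refine Finset.card_le_card_of_injOn (fun x => (x.2, x.1 - x.2)) ?_ ?_
    · rintro ⟨N, i⟩ h
      rw [Finset.mem_coe, Finset.mem_sigma, Finset.mem_Ico] at h
      obtain ⟨-, h4, h5⟩ := h
      simp only at h4 h5
      have h6 : max (b q.1) (N - e q.2) ≥ b q.1 := le_max_left _ _
      have h7 : max (b q.1) (N - e q.2) ≥ N - e q.2 := le_max_right _ _
      have h8 : min (e q.1) (N - b q.2) ≤ e q.1 := min_le_left _ _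
      have h9 : min (e q.1) (N - b q.2) ≤ N - b q.2 := min_le_right _ _
      refine Finset.mem_coe.2 (Finset.mem_product.2 ⟨?_, ?_⟩)
      · rw [mem_Ico]; simp only; omega
      · rw [mem_Ioc]; simp only; omega
    · rintro ⟨N, i⟩ h ⟨N', i'⟩ h' heq
      rw [Finset.mem_coe, Finset.mem_sigma, Finset.mem_Ico] at h h'
      obtain ⟨-, h4, h5⟩ := h
      obtain ⟨-, h4', h5'⟩ := h'
      simp only at h4 h5 h4' h5'
      have h9 : min (e q.1) (N - b q.2) ≤ N - b q.2 := min_le_right _ _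
      have h9' : min (e q.1) (N' - b q.2) ≤ N' - b q.2 := min_le_right _ _
      simp only [Prod.mk.injEq] at heq
      obtain ⟨h10, h11⟩ := heq
      subst h10
      have : N = N' := by omega
      subst this
      rfl
  refine (Finset.sum_le_sum h2).trans (le_of_eq ?_)
  rw [Finset.sum_product, sq, Finset.sum_mul_sum]

end Comb

/-- the analytic part -/
lemma analytic (x L Λ : ℕ) (lam g : ℕ → ℕ) (h : ∀ m, 1 ≤ m → m ≤ x →
    4 * m ≤ 14 * lam m + 9 * (g m * (g m + 1)))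
    (h1 : ∑ m ∈ Icc 1 x, lam m ≤ Λ ^ 2) (h2 : ∑ m ∈ Icc 1 x, g m ≤ L * (L + 2 * Λ)) :
    5 * (x : ℝ) * Real.sqrt x ≤ 15 * (Λ : ℝ) * Real.sqrt x + 16 * (L * (L + 2 * Λ)) := by
  have hpt : ∀ m ∈ Icc 1 x, 15 * Real.sqrt (m : ℝ) ≤ 30 * Real.sqrt (lam m : ℝ) + 32 * (g m : ℝ) := by
    intro m hm
    rw [mem_Icc] at hm
    have h3 := h m hm.1 hm.2
    have h4 : (4 * m : ℝ) ≤ 14 * lam m + 9 * (g m * (g m + 1)) := by exact_mod_cast h3
    have hg : (g m : ℝ) ≤ (g m : ℝ) ^ 2 := by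
      have : g m ≤ g m ^ 2 := Nat.le_self_pow (by norm_num) _
      exact_mod_cast this
    set u := Real.sqrt (lam m : ℝ) with hu
    have hu2 : u ^ 2 = lam m := Real.sq_sqrt (Nat.cast_nonneg _)
    have hu0 : 0 ≤ u := Real.sqrt_nonneg _
    have hg0 : (0 : ℝ) ≤ g m := Nat.cast_nonneg _
    have h5 : Real.sqrt (m : ℝ) ≤ 2 * u + 32 / 15 * g m := by
      rw [show 2 * u + 32 / 15 * (g m : ℝ) = Real.sqrt ((2 * u + 32 / 15 * g m) ^ 2) by
        rw [Real.sqrt_sq (by positivity)]]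
      apply Real.sqrt_le_sqrt
      nlinarith [mul_nonneg hu0 hg0]
    linarith
  have hsum := Finset.sum_le_sum hpt
  rw [← Finset.mul_sum, Finset.sum_add_distrib, ← Finset.mul_sum, ← Finset.mul_sum] at hsum
  have h3 := Pool.Agent.R361.sum_sqrt x
  have h4 : (∑ m ∈ Icc 1 x, Real.sqrt (lam m : ℝ)) ≤ Real.sqrt x * Λ := by
    have h5 : (∑ m ∈ Icc 1 x, Real.sqrt (lam m : ℝ)) ^ 2 ≤ (Real.sqrt x * Λ) ^ 2 := by
      have h6 := sq_sum_le_card_mul_sum_sq (s := Icc 1 x) (f := fun m => Real.sqrt (lam m : ℝ))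
      rw [Nat.card_Icc, Nat.add_sub_cancel] at h6
      refine h6.trans ?_
      rw [mul_pow, Real.sq_sqrt (Nat.cast_nonneg _)]
      refine mul_le_mul_of_nonneg_left ?_ (Nat.cast_nonneg _)
      have h7 : ∑ m ∈ Icc 1 x, Real.sqrt (lam m : ℝ) ^ 2 = ((∑ m ∈ Icc 1 x, lam m : ℕ) : ℝ) := by
        push_cast
        refine Finset.sum_congr rfl fun m _ => ?_
        rw [Real.sq_sqrt (Nat.cast_nonneg _)]
      rw [h7]
      exact_mod_cast h1
    exact le_of_sq_le_sq h5 (by positivity)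
  have h5 : (∑ m ∈ Icc 1 x, (g m : ℝ)) ≤ L * (L + 2 * Λ) := by
    exact_mod_cast h2
  have h6 : Real.sqrt x ^ 3 = x * Real.sqrt x := by
    rw [pow_succ, Real.sq_sqrt (Nat.cast_nonneg _)]
  rw [h6] at h3
  nlinarith

/-- Let `2 K + 3 ≤ p` and let the regular indices `i`, `V < i < K - V`, be covered by `L` intervals
`[b, e]` with `Λ = ∑ (e - b)`. If `3 V + 1 + x ≤ K` then `x √x ≤ 3 Λ √x + (16 / 5) L (L + 2 Λ)`. -/
theorem index_spread (p : ℕ) [hp : Fact p.Prime] (K V x : ℕ) (hK : 2 * K + 3 ≤ p)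
    (hx : 3 * V + 1 + x ≤ K) {α : Type} (S : Finset α) (b e : α → ℕ)
    (hcov : ∀ i, V < i → i < K - V → cc p (2 * i) ≠ 0 → ∃ a ∈ S, b a ≤ i ∧ i ≤ e a) :
    5 * (x : ℝ) * Real.sqrt x ≤ 15 * ((∑ a ∈ S, (e a - b a) : ℕ) : ℝ) * Real.sqrt x +
      16 * (S.card * (S.card + 2 * ((∑ a ∈ S, (e a - b a) : ℕ) : ℝ))) := by
  classical
  refine analytic x S.card (∑ a ∈ S, (e a - b a))
    (fun m => ∑ q ∈ SN S b e (3 * V + 1 + m), (min (e q.1) (3 * V + 1 + m - b q.2) -
      max (b q.1) (3 * V + 1 + m - e q.2))) (fun m => (SN S b e (3 * V + 1 + m)).card) ?_ ?_ ?_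
  · intro m hm1 hmx
    set N := 3 * V + 1 + m with hN
    have h := spread p N V (by omega) (by omega) (by omega) (SN S b e N)
      (fun q => max (b q.1) (N - e q.2)) (fun q => min (e q.1) (N - b q.2)) ?_
    · beta_reduce at h ⊢
      omega
    · intro i hi1 hi2 hw
      unfold ww at hw
      obtain ⟨h1, h2⟩ := mul_ne_zero_iff.1 hw
      obtain ⟨a, ha, ha1, ha2⟩ := hcov i hi1 (by omega) h1
      obtain ⟨a', ha', ha1', ha2'⟩ := hcov (N - i) (by omega) (by omega) h2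
      refine ⟨(a, a'), ?_, ?_, ?_⟩
      · rw [mem_SN]
        simp only
        refine ⟨⟨ha, ha'⟩, by omega, by omega, by omega, by omega⟩
      · simp only
        exact max_le ha1 (by omega)
      · simp only
        exact le_min ha2 (by omega)
  · have h := sum_len_SN S b e ((Icc 1 x).image (fun m => 3 * V + 1 + m))
    rw [Finset.sum_image (fun a _ b _ h => by simpa using h)] at h
    exact h
  · have h := sum_card_SN S b e ((Icc 1 x).image (fun m => 3 * V + 1 + m))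
    rw [Finset.sum_image (fun a _ b _ h => by simpa using h)] at h
    exact h

end Pool.Agent.N957.RP
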